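import Pool.Agent.Lib.MP_c67b86_co.Defs
import Pool.Agent.Lib.MP_c67b86_co.SpecC
import Pool.Agent.Lib.MP_c67b86_co.TYP
import Pool.Agent.Lib.MP_c67b86_co.Q.TYP

section
/-!
# MP_c67b86_co: topological containment
-/
set_option autoImplicit false

namespace Pool.Agent.Lib.MPc67b86

variable {V W : Type}

/-- `G` contains a subdivision of `H` (isolated vertices of `H` are ignored): branch vertices `f a`,
the inner vertices of the path for the edge `e` are in `I e` -/
def TC (H : SimpleGraph W) (G : SimpleGraph V) : Prop :=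
  ∃ (f : W → V) (I : Sym2 W → Set V),
    (∀ a b, (∃ c, H.Adj a c) → (∃ c, H.Adj b c) → f a = f b → a = b) ∧
    (∀ e c, (∃ d, H.Adj c d) → f c ∉ I e) ∧
    (∀ e e', e ≠ e' → Disjoint (I e) (I e')) ∧
    ∀ a b, H.Adj a b → Lk G (f a) (f b) (I s(a, b))

namespace TCM

theorem lk_of_adj {G : SimpleGraph V} {a b : V} (h : G.Adj a b) (I : Set V) : Lk G a b I :=
  SimpleGraph.Adj.reachable ⟨h, Or.inl rfl, Or.inr (Or.inl rfl)⟩

theorem refl (G : SimpleGraph V) : TC G G :=
  ⟨id, fun _ => ∅, fun _ _ _ _ h => h, fun _ _ _ h => h, fun _ _ _ => disjoint_bot_left,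
    fun _ _ h => lk_of_adj h _⟩

theorem mono {H H' : SimpleGraph W} {G : SimpleGraph V} (hle : H' ≤ H) (h : TC H G) : TC H' G := by
  obtain ⟨f, I, h1, h2, h3, h4⟩ := h
  exact ⟨f, I, fun a b ⟨c, hc⟩ ⟨d, hd⟩ => h1 a b ⟨c, hle hc⟩ ⟨d, hle hd⟩,
    fun e c ⟨d, hd⟩ => h2 e c ⟨d, hle hd⟩, h3, fun a b hab => h4 a b (hle hab)⟩

theorem comap {W' : Type} (e : W' ↪ W) {H : SimpleGraph W} {G : SimpleGraph V} (h : TC H G) :
    TC (H.comap e) G := by
  obtain ⟨f, I, h1, h2, h3, h4⟩ := h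
  refine ⟨fun a => f (e a), fun s => I (Sym2.map e s), ?_, ?_, ?_, ?_⟩
  · rintro a b ⟨c, hc⟩ ⟨d, hd⟩ hab
    exact e.injective (h1 _ _ ⟨e c, hc⟩ ⟨e d, hd⟩ hab)
  · rintro s c ⟨d, hd⟩
    exact h2 _ _ ⟨e d, hd⟩
  · intro s s' hne
    exact h3 _ _ fun h => hne (Sym2.map.injective e.injective h)
  · intro a b hab
    exact h4 _ _ hab

theorem reach_of_lk {H : SimpleGraph W} {G : SimpleGraph V} {f : W → V} {I : Sym2 W → Set V}
    (h4 : ∀ a b, H.Adj a b → Lk G (f a) (f b) (I s(a, b))) (X : Set W) (A : Set V)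
    (hA : ∀ a b, a ∈ X → b ∈ X → H.Adj a b → f a ∈ A ∧ f b ∈ A ∧ I s(a, b) ⊆ A)
    {x y : W} (h : (res H X).Reachable x y) : (res G A).Reachable (f x) (f y) := by
  obtain ⟨p⟩ := h
  induction p with
  | nil => exact SimpleGraph.Reachable.refl _
  | @cons a b c hab p ih =>
    refine SimpleGraph.Reachable.trans ?_ ih
    obtain ⟨q1, q2, q3⟩ := hA a b hab.2.1 hab.2.2 hab.1
    refine SimpleGraph.Reachable.mono ?_ (h4 a b hab.1)
    intro u v huv
    have hz : ∀ w, w ∈ insert (f a) (insert (f b) (I s(a, b))) → w ∈ A := by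
      rintro w (rfl | rfl | hw)
      · exact q1
      · exact q2
      · exact q3 hw
    exact ⟨huv.1, hz _ huv.2.1, hz _ huv.2.2⟩

theorem niso_of_reach {H : SimpleGraph W} {X : Set W} {x y : W} (hxy : x ≠ y)
    (h : (res H X).Reachable x y) : ∃ c, H.Adj x c := by
  obtain ⟨p⟩ := h
  cases p with
  | nil => exact absurd rfl hxy
  | cons hab p => exact ⟨_, hab.1⟩

theorem lop {H : SimpleGraph W} {G : SimpleGraph V} {x y : W} {J : Set W} (hxy : x ≠ y)
    (hx : x ∉ J) (hy : y ∉ J) (hL : Lk H x y J) (h : TC H G) :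
    TC (Pool.Agent.Lib.MPc67b86.lop H J x y) G := by
  classical
  obtain ⟨f, I, h1, h2, h3, h4⟩ := h
  let B : Set V := {v | (∃ c ∈ J, (∃ d, H.Adj c d) ∧ f c = v) ∨
    ∃ a b, H.Adj a b ∧ a ∈ insert x (insert y J) ∧ b ∈ insert x (insert y J) ∧ v ∈ I s(a, b)}
  let I' : Sym2 W → Set V := fun e =>
    if e = s(x, y) then B else if ∃ c ∈ J, c ∈ e then ∅ else I e
  have hxn : ∃ c, H.Adj x c := niso_of_reach hxy hL
  have hyn : ∃ c, H.Adj y c := niso_of_reach hxy.symm hL.symm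
  have hn : ∀ c, (∃ d, (Pool.Agent.Lib.MPc67b86.lop H J x y).Adj c d) →
      (∃ d, H.Adj c d) ∧ c ∉ J := by
    rintro c ⟨d, _, hd | ⟨rfl, _⟩ | ⟨rfl, _⟩⟩
    · exact ⟨⟨d, hd.1⟩, hd.2.1⟩
    · exact ⟨hxn, hx⟩
    · exact ⟨hyn, hy⟩
  have hI1 : I' s(x, y) = B := if_pos rfl
  have hI2 : ∀ e, e ≠ s(x, y) → I' e ⊆ I e ∧ ∀ c ∈ J, c ∈ e → I' e = ∅ := by
    intro e he
    have h5 : I' e = if ∃ c ∈ J, c ∈ e then ∅ else I e := if_neg he
    rw [h5]
    constructor
    · split_ifs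
      · exact Set.empty_subset _
      · exact le_rfl
    · intro c hc hce
      rw [if_pos ⟨c, hc, hce⟩]
  have hI3 : ∀ e, e ≠ s(x, y) → (∀ c ∈ J, c ∉ e) → I' e = I e := by
    intro e he hJ
    have h5 : I' e = if ∃ c ∈ J, c ∈ e then ∅ else I e := if_neg he
    rw [h5, if_neg]
    rintro ⟨c, hc, hce⟩
    exact hJ c hc hce
  -- the set `B` is disjoint from the other sets
  have hBI : ∀ e, e ≠ s(x, y) → Disjoint B (I' e) := by
    intro e he
    by_cases hJ : ∃ c ∈ J, c ∈ e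
    · obtain ⟨c, hc, hce⟩ := hJ
      rw [(hI2 e he).2 c hc hce]
      exact disjoint_bot_right
    · push Not at hJ
      rw [hI3 e he hJ, Set.disjoint_left]
      rintro v (⟨c, _, hcn, rfl⟩ | ⟨a, b, hab, ha, hb, hv⟩) hve
      · exact h2 e c hcn hve
      · have hne : s(a, b) ≠ e := by
          intro heq
          subst heq
          have ha' : a ∉ J := fun h => hJ a h (Sym2.mem_mk_left a b)
          have hb' : b ∉ J := fun h => hJ b h (Sym2.mem_mk_right a b)
          rcases ha with rfl | rfl | ha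
          · rcases hb with rfl | rfl | hb
            · exact hab.ne rfl
            · exact he rfl
            · exact hb' hb
          · rcases hb with rfl | rfl | hb
            · exact he Sym2.eq_swap
            · exact hab.ne rfl
            · exact hb' hb
          · exact ha' ha
        exact Set.disjoint_left.1 (h3 _ _ hne) hv hve
  refine ⟨f, I', ?_, ?_, ?_, ?_⟩
  · intro a b ha hb hab
    exact h1 a b (hn a ha).1 (hn b hb).1 hab
  · intro e c hc hce
    obtain ⟨hcn, hcJ⟩ := hn c hc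
    by_cases he : e = s(x, y)
    · subst he
      rw [hI1] at hce
      rcases hce with ⟨d, hd, hdn, hdc⟩ | ⟨a, b, _, _, _, hv⟩
      · exact hcJ (h1 d c hdn hcn hdc ▸ hd)
      · exact h2 _ c hcn hv
    · exact h2 e c hcn ((hI2 e he).1 hce)
  · intro e e' hne
    by_cases he : e = s(x, y)
    · subst he
      rw [hI1]
      exact hBI e' hne.symm
    · by_cases he' : e' = s(x, y)
      · subst he'
        rw [hI1]
        exact (hBI e hne).symm
      · exact Set.disjoint_of_subset (hI2 e he).1 (hI2 e' he').1 (h3 e e' hne)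
  · intro a b hab
    by_cases he : s(a, b) = s(x, y)
    · have hLB : Lk G (f x) (f y) B := by
        refine reach_of_lk h4 (insert x (insert y J)) _ ?_ hL
        intro u v hu hv huv
        have hz : ∀ w, w ∈ insert x (insert y J) → (∃ d, H.Adj w d) →
            f w ∈ insert (f x) (insert (f y) B) := by
          rintro w (rfl | rfl | hw) hwn
          · exact Or.inl rfl
          · exact Or.inr (Or.inl rfl)
          · exact Or.inr (Or.inr (Or.inl ⟨w, hw, hwn, rfl⟩))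
        exact ⟨hz u hu ⟨v, huv⟩, hz v hv ⟨u, huv.symm⟩,
          fun w hw => Or.inr (Or.inr (Or.inr ⟨u, v, huv, hu, hv, hw⟩))⟩
      rw [he, hI1]
      rw [Sym2.eq_iff] at he
      rcases he with ⟨rfl, rfl⟩ | ⟨rfl, rfl⟩
      · exact hLB
      · unfold Lk at hLB ⊢
        rw [Set.insert_comm]
        exact hLB.symm
    · rcases hab with ⟨hab', hab | hab | hab⟩
      · rw [hI3 _ he]
        · exact h4 a b hab.1
        · intro c hc hce
          rw [Sym2.mem_iff] at hce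
          rcases hce with rfl | rfl
          · exact hab.2.1 hc
          · exact hab.2.2 hc
      · exact absurd (by rw [hab.1, hab.2]) he
      · exact absurd (by rw [hab.1, hab.2]; exact Sym2.eq_swap) he

end TCM

end Pool.Agent.Lib.MPc67b86
end

section
/-!
# MP_c67b86_co, module FIN: the final statements
-/
set_option autoImplicit false

namespace Pool.Agent.Lib.MPc67b86

namespace FINM

variable {V W : Type}

/-- sets replaced by paths -/
theorem tc_walks {H : SimpleGraph W} {G : SimpleGraph V} (h : TC H G)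
    (hiso : ∀ a, ∃ c, H.Adj a c) :
    ∃ (f : W ↪ V) (P : ∀ a b : W, H.Adj a b → G.Walk (f a) (f b)),
      (∀ a b (h : H.Adj a b), (P a b h).IsPath) ∧
      (∀ a b (h : H.Adj a b) (c : W), f c ∈ (P a b h).support → c = a ∨ c = b) ∧
      ∀ a b (h : H.Adj a b) a' b' (h' : H.Adj a' b'), s(a, b) ≠ s(a', b') →
        ∀ v, v ∈ (P a b h).support → v ∈ (P a' b' h').support → v ∈ Set.range f := by
  obtain ⟨f, I, h1, h2, h3, h4⟩ := h
  have hP : ∀ a b, H.Adj a b → ∃ p : G.Walk (f a) (f b), p.IsPath ∧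
      ∀ v ∈ p.support, v = f a ∨ v = f b ∨ v ∈ I s(a, b) :=
    fun a b hab => TKWM.exists_path G _ _ _ (h4 a b hab)
  choose P hP using hP
  have hf : Function.Injective f := fun a b hab => h1 a b (hiso a) (hiso b) hab
  refine ⟨⟨f, hf⟩, P, fun a b h => (hP a b h).1, ?_, ?_⟩
  · intro a b h c hc
    rcases (hP a b h).2 _ hc with h' | h' | h'
    · exact Or.inl (hf h')
    · exact Or.inr (hf h')
    · exact absurd h' (h2 _ c (hiso c))
  · intro a b h a' b' h' hne v hv hv'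
    rcases (hP a b h).2 v hv with q | q | q
    · exact ⟨a, q.symm⟩
    · exact ⟨b, q.symm⟩
    · rcases (hP a' b' h').2 v hv' with q' | q' | q'
      · exact ⟨a', q'.symm⟩
      · exact ⟨b', q'.symm⟩
      · exact absurd q' (Set.disjoint_left.1 (h3 _ _ hne) q)

/-- a minimal counterexample is 4-connected -/
theorem conn (hDEG : SpecDEG) (hSP3 : SpecSP3) [Finite V] {G : SimpleGraph V} (hG : Min G)
    (hV : Nonempty V) : 5 ≤ Nat.card V ∧
      ∀ S : Set V, S.ncard ≤ 3 → (G.induce Sᶜ).Connected := by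
  have hcard : 5 ≤ Nat.card V := by
    obtain ⟨u⟩ := hV
    have h1 : G.neighborSet u ⊆ {u}ᶜ := fun w hw => by
      have hw' : G.Adj u w := hw
      exact fun e => hw'.ne e.symm
    have h2 := Set.ncard_le_ncard h1 (Set.toFinite _)
    have h3 := Set.ncard_add_ncard_compl ({u} : Set V)
    rw [Set.ncard_singleton] at h3
    have := (hDEG V G hG).1 u
    omega
  refine ⟨hcard, fun S hS => ?_⟩
  have hne : Nonempty (Sᶜ : Set V) := by
    by_contra hne
    rw [Set.nonempty_coe_sort, Set.not_nonempty_iff_eq_empty, Set.compl_empty_iff] at hne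
    rw [hne, Set.ncard_univ] at hS
    omega
  refine ⟨?_⟩
  intro u v
  by_contra huv
  refine hSP3 V G hG S {w | ∃ h : w ∉ S, (G.induce Sᶜ).Reachable u ⟨w, h⟩} hS
    ⟨⟨u, u.2, SimpleGraph.Reachable.refl _⟩, fun w hw => hw.1, ⟨v, v.2, fun h => huv h.2⟩, ?_⟩
  rintro w ⟨hw, hr⟩ z hwz
  by_cases hz : z ∈ S
  · exact Or.inr hz
  · exact Or.inl ⟨hz, hr.trans (SimpleGraph.Adj.reachable (show (G.induce Sᶜ).Adj ⟨w, hw⟩ ⟨z, hz⟩ from hwz))⟩

/-- the local configuration -/
theorem star (hDEG : SpecDEG) (hSP3 : SpecSP3) (hGAD : SpecGAD) [Finite V] {G : SimpleGraph V}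
    (hG : Min G) (R : Set V) (c : V) (hR : R.ncard = 4) (hc : c ∉ R)
    (hne : ∃ v, G.Adj c v ∧ v ∉ R)
    (hv : ∀ v, G.Adj c v → v ∉ R → (G.neighborSet v).ncard = 4 ∧
      ∀ w, G.Adj v w → w ∈ R ∨ w = c) : False := by
  classical
  have hdom := (hDEG V G hG).2
  have hNL : ∀ v, G.Adj c v → v ∉ R → G.neighborSet v \ {c} ⊆ R := by
    rintro v hcv hvR w ⟨hw, hwc⟩
    exact ((hv v hcv hvR).2 w hw).resolve_right hwc
  have hN3 : ∀ v, G.Adj c v → v ∉ R → (G.neighborSet v \ {c}).ncard = 3 := by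
    intro v hcv hvR
    have h1 := Set.ncard_sdiff_singleton_of_mem (show c ∈ G.neighborSet v from hcv.symm)
    have h2 := (hv v hcv hvR).1
    omega
  let e : R ≃ Fin 4 := Finite.equivFinOfCardEq (by rw [Nat.card_coe_set_eq]; exact hR)
  let r : Fin 4 → V := fun i => (e.symm i).1
  have hrR : ∀ i, r i ∈ R := fun i => (e.symm i).2
  have hrinj : Function.Injective r := fun i j h => e.symm.injective (Subtype.ext h)
  have hrsurj : ∀ w ∈ R, ∃ i, w = r i := fun w hw => ⟨e ⟨w, hw⟩, by simp [r]⟩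
  have hmiss : ∀ v, G.Adj c v → v ∉ R → ∃ d, ¬ G.Adj v (r d) := by
    intro v hcv hvR
    by_contra hall
    push Not at hall
    have h1 : R ⊆ G.neighborSet v \ {c} := by
      intro w hw
      obtain ⟨i, rfl⟩ := hrsurj w hw
      exact ⟨hall i, fun h => hc (h ▸ hw)⟩
    have h2 := Set.ncard_le_ncard h1 (Set.toFinite _)
    rw [hN3 v hcv hvR, hR] at h2
    omega
  have hfull : ∀ v, G.Adj c v → v ∉ R → ∀ d, ¬ G.Adj v (r d) → ∀ i, i ≠ d → G.Adj v (r i) := by
    intro v hcv hvR d hd' i hid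
    have h1 : G.neighborSet v \ {c} ⊆ R \ {r d} := fun w hw =>
      ⟨hNL v hcv hvR hw, fun h => hd' (by rw [← Set.mem_singleton_iff.1 h]; exact hw.1)⟩
    have h2 : (R \ {r d}).ncard = 3 := by
      have := Set.ncard_sdiff_singleton_of_mem (hrR d)
      omega
    have h3 := Set.eq_of_subset_of_ncard_le h1 (by rw [h2, hN3 v hcv hvR]) (Set.toFinite _)
    have h4 : r i ∈ R \ {r d} := ⟨hrR i, fun h => hid (hrinj h)⟩
    rw [← h3] at h4
    exact h4.1
  let D : Finset (Fin 4) := Finset.univ.filter fun d => ∃ v, (G.Adj c v ∧ v ∉ R) ∧ ¬ G.Adj v (r d)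
  have hDm : ∀ d, d ∈ D ↔ ∃ v, (G.Adj c v ∧ v ∉ R) ∧ ¬ G.Adj v (r d) := fun d => by simp [D]
  let v : Fin 4 → V := fun d =>
    if h : ∃ v, (G.Adj c v ∧ v ∉ R) ∧ ¬ G.Adj v (r d) then h.choose else c
  have hvd : ∀ d ∈ D, G.Adj c (v d) ∧ v d ∉ R ∧ ¬ G.Adj (v d) (r d) := by
    intro d hdD
    have h := (hDm d).1 hdD
    have hvd : v d = h.choose := dif_pos h
    rw [hvd]
    exact ⟨h.choose_spec.1.1, h.choose_spec.1.2, h.choose_spec.2⟩
  have hLv : ∀ w, G.Adj c w → w ∉ R → ∃ d ∈ D, w = v d := by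
    intro w hcw hwR
    obtain ⟨d, hd'⟩ := hmiss w hcw hwR
    have hdD : d ∈ D := (hDm d).2 ⟨w, ⟨hcw, hwR⟩, hd'⟩
    refine ⟨d, hdD, ?_⟩
    by_contra hne
    obtain ⟨h1, h2, h3⟩ := hvd d hdD
    have hnadj : ¬ G.Adj w (v d) := by
      intro h
      rcases (hv w hcw hwR).2 _ h with h | h
      · exact h2 h
      · exact h1.ne h.symm
    refine hdom w (v d) hne hnadj ?_
    intro u hu
    by_cases huc : u = c
    · subst huc; exact h1.symm
    · obtain ⟨i, rfl⟩ := hrsurj u (hNL w hcw hwR ⟨hu, huc⟩)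
      exact hfull _ h1 h2 d h3 i fun h => hd' (h ▸ hu)
  have hNv : ∀ d ∈ D, ∀ w, G.Adj (v d) w ↔ w = c ∨ ∃ i, i ≠ d ∧ w = r i := by
    intro d hdD w
    obtain ⟨h1, h2, h3⟩ := hvd d hdD
    constructor
    · intro hw
      by_cases hwc : w = c
      · exact Or.inl hwc
      · obtain ⟨i, rfl⟩ := hrsurj w (hNL _ h1 h2 ⟨hw, hwc⟩)
        exact Or.inr ⟨i, fun h => h3 (h ▸ hw), rfl⟩
    · rintro (rfl | ⟨i, hi, rfl⟩)
      · exact h1.symm
      · exact hfull _ h1 h2 d h3 i hi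
  have hD0 : D.Nonempty := by
    obtain ⟨w, hw1, hw2⟩ := hne
    obtain ⟨d, hd', _⟩ := hLv w hw1 hw2
    exact ⟨d, hd'⟩
  refine hGAD V G hG r c D v ⟨hrinj, ?_, ?_, ?_, ?_, hD0, hNv, ?_, ?_⟩
  · intro i h
    exact hc (h ▸ hrR i)
  · intro d hdD i h
    exact (hvd d hdD).2.1 (h ▸ hrR i)
  · intro d hdD h
    exact (hvd d hdD).1.ne h.symm
  · intro d hdD e' heD hde
    by_contra hne
    obtain ⟨h1, h2, h3⟩ := hvd d hdD
    obtain ⟨_, _, h6⟩ := hvd e' heD
    rw [← hde] at h6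
    exact h6 (hfull _ h1 h2 d h3 e' fun h => hne h.symm)
  · intro w hw
    by_cases hwR : w ∈ R
    · exact Or.inl (hrsurj w hwR)
    · exact Or.inr (hLv w hw hwR)
  · intro i
    by_contra hcon
    push Not at hcon
    obtain ⟨hci, hDi⟩ := hcon
    obtain ⟨d, hdD⟩ := hD0
    have hdi := hDi d hdD
    subst hdi
    obtain ⟨h1, h2, h3⟩ := hvd d hdD
    refine hSP3 V G hG (R \ {r d}) {c, v d} ?_ ⟨⟨c, Or.inl rfl⟩, ?_, ⟨r d, fun h => h.2 rfl, ?_⟩, ?_⟩
    · have := Set.ncard_sdiff_singleton_of_mem (hrR d)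
      omega
    · rintro w (rfl | rfl)
      · exact fun h => hc h.1
      · exact fun h => h2 h.1
    · rintro (h | h)
      · exact hc (h ▸ hrR d)
      · exact h2 (h ▸ hrR d)
    · rintro u (rfl | rfl) w huw
      · by_cases hwR : w ∈ R
        · exact Or.inr ⟨hwR, fun h => hci (Set.mem_singleton_iff.1 h ▸ huw)⟩
        · obtain ⟨d', hd', rfl⟩ := hLv w huw hwR
          left; right
          rw [hDi d' hd']
          rfl
      · rcases (hNv d hdD w).1 huw with rfl | ⟨i, hi, rfl⟩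
        · exact Or.inl (Or.inl rfl)
        · exact Or.inr ⟨hrR i, fun h => hi (hrinj h)⟩

end FINM

open FINM

/-- **Theorem A**: the class `Elim` -/
theorem mainA (hELM : SpecELM) (hELL : SpecELL) (hNIV : SpecNIV) (hSTR : SpecSTR)
    (hGAD : SpecGAD) (V : Type) [Finite V] (G : SimpleGraph V) (hE : Elim G) (hT : ¬ TK5 G) :
    Col4 G := by
  by_contra hc
  obtain ⟨n, G', hG', hE'⟩ := hNIV (fun V G => Elim G)
    (fun V _ => ⟨fun G G' hle h => hELM V G G' hle h,
      fun G x y I h1 h2 h3 h4 h5 => hELL V G x y I h1 h2 h3 h4 h5⟩)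
    (fun V W _ _ e G h => ELIM.elim_comap hELM e h) V G hE hT hc
  obtain ⟨r, c, D, v, hg⟩ := hSTR (Fin n) G' hG' hE'
  exact hGAD (Fin n) G' hG' r c D v hg

/-- **Theorem B**: every counterexample contains a minimal one -/
theorem mainB (hNIV : SpecNIV) (V : Type) [Finite V] (G : SimpleGraph V) (hT : ¬ TK5 G)
    (hc : ¬ Col4 G) : ∃ (n : ℕ) (G' : SimpleGraph (Fin n)), Min G' ∧ TC G' G :=
  hNIV (fun W H => TC H G)
    (fun W _ => ⟨fun H H' hle h => TCM.mono hle h,
      fun H x y I h1 h2 h3 h4 h5 => TCM.lop h1 h2 h3 h4 h5⟩)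
    (fun W W' _ _ e H h => TCM.comap e h) V G (TCM.refl G) hT hc

end Pool.Agent.Lib.MPc67b86
end

section
/-!
# MP_c67b86_co, any number of colours, module FIN: the final statements
-/
set_option autoImplicit false

namespace Pool.Agent.Lib.MPc67b86.Q

variable {nc : ℕ}

namespace FINM

variable {V : Type}

/-- a minimal counterexample is 4-connected -/
theorem conn (hnc : 4 ≤ nc) (hDEG : SpecDEG nc) (hSP3 : SpecSP3 nc) [Finite V] {G : SimpleGraph V}
    (hG : Min nc G) (hV : Nonempty V) : 5 ≤ Nat.card V ∧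
      ∀ S : Set V, S.ncard ≤ 3 → (G.induce Sᶜ).Connected := by
  classical
  have hcard : 5 ≤ Nat.card V := by
    obtain ⟨u⟩ := hV
    have h1 : G.neighborSet u ⊆ {u}ᶜ := fun w hw => by
      have hw' : G.Adj u w := hw
      exact fun e => hw'.ne e.symm
    have h2 := Set.ncard_le_ncard h1 (Set.toFinite _)
    have h3 := Set.ncard_add_ncard_compl ({u} : Set V)
    rw [Set.ncard_singleton] at h3
    have := (hDEG V G hG).1 u
    omega
  refine ⟨hcard, fun S hS => ?_⟩
  have hne : Nonempty (Sᶜ : Set V) := by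
    by_contra hne
    rw [Set.nonempty_coe_sort, Set.not_nonempty_iff_eq_empty, Set.compl_empty_iff] at hne
    rw [hne, Set.ncard_univ] at hS
    omega
  refine ⟨?_⟩
  intro u v
  by_contra huv
  refine hSP3 V G hG S {w | ∃ h : w ∉ S, (G.induce Sᶜ).Reachable u ⟨w, h⟩} hS
    ⟨⟨u, u.2, SimpleGraph.Reachable.refl _⟩, fun w hw => hw.1, ⟨v, v.2, fun h => huv h.2⟩, ?_⟩
  rintro w ⟨hw, hr⟩ z hwz
  by_cases hz : z ∈ S
  · exact Or.inr hz
  · exact Or.inl ⟨hz, hr.trans (SimpleGraph.Adj.reachable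
      (show (G.induce Sᶜ).Adj ⟨w, hw⟩ ⟨z, hz⟩ from hwz))⟩

/-- without one edge a minimal counterexample can be coloured -/
theorem edge (hTKL : SpecTKL nc) [Finite V] {G : SimpleGraph V} (hG : Min nc G) (a b : V)
    (hab : G.Adj a b) : ∃ f : V → Fin nc, ∀ u v, G.Adj u v → s(u, v) ≠ s(a, b) → f u ≠ f v := by
  classical
  obtain ⟨P, hP, hPG, hmin⟩ := hG.ex
  let G' : SimpleGraph V := G.deleteEdges {s(a, b)}
  have hle : G' ≤ G := SimpleGraph.deleteEdges_le _
  have hlt : G'.edgeSet.ncard < G.edgeSet.ncard := by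
    refine Set.ncard_lt_ncard ⟨SimpleGraph.edgeSet_mono hle, ?_⟩ (Set.toFinite _)
    intro hsub
    have h1 : s(a, b) ∈ G'.edgeSet := hsub ((SimpleGraph.mem_edgeSet G).2 hab)
    rw [SimpleGraph.mem_edgeSet, SimpleGraph.deleteEdges_adj] at h1
    exact h1.2 rfl
  have hcol : Col nc G' := by
    by_contra hc
    exact hmin G' (hP.1 G G' hle hPG) (fun h => hG.bad.2.1 (hTKL.1 V G G' hle h)) hc hlt
  obtain ⟨f, hf⟩ := hcol
  refine ⟨f, fun u v huv hne => hf u v ?_⟩
  rw [SimpleGraph.deleteEdges_adj]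
  exact ⟨huv, fun h => hne (Set.mem_singleton_iff.1 h)⟩

theorem reach_of_walk {G : SimpleGraph V} {S : Set V} {a b : V} (P : G.Walk a b)
    (h : ∀ v ∈ P.support, v ∈ S) : (res G S).Reachable a b := by
  induction P with
  | nil => exact SimpleGraph.Reachable.refl _
  | @cons u v w huv P ih =>
    have h1 : (res G S).Adj u v := ⟨huv, h u (by simp), h v (by simp)⟩
    exact h1.reachable.trans (ih fun w' hw' => h w' (by
      rw [SimpleGraph.Walk.support_cons]; exact List.mem_cons_of_mem _ hw'))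

/-- sets replaced by paths -/
theorem walks_of_tk (hnc : 4 ≤ nc) {G : SimpleGraph V} (h : TK nc G) :
    ∃ (f : Fin (nc + 1) ↪ V) (P : ∀ a b : Fin (nc + 1),
      (⊤ : SimpleGraph (Fin (nc + 1))).Adj a b → G.Walk (f a) (f b)),
      (∀ a b (h : (⊤ : SimpleGraph (Fin (nc + 1))).Adj a b), (P a b h).IsPath) ∧
      (∀ a b (h : (⊤ : SimpleGraph (Fin (nc + 1))).Adj a b) (c : Fin (nc + 1)),
        f c ∈ (P a b h).support → c = a ∨ c = b) ∧
      ∀ a b (h : (⊤ : SimpleGraph (Fin (nc + 1))).Adj a b) a' b'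
        (h' : (⊤ : SimpleGraph (Fin (nc + 1))).Adj a' b'), s(a, b) ≠ s(a', b') →
        ∀ v, v ∈ (P a b h).support → v ∈ (P a' b' h').support → v ∈ Set.range f := by
  obtain ⟨f, I, hf, h1, h2, h3⟩ := h
  refine MPc67b86.FINM.tc_walks (G := G) (H := (⊤ : SimpleGraph (Fin (nc + 1))))
    ⟨f, fun e => {v | ∃ i j, i < j ∧ e = s(i, j) ∧ v ∈ I i j}, ?_, ?_, ?_, ?_⟩ ?_
  · intro a b _ _ h
    exact hf h
  · rintro e c _ ⟨i, j, hij, _, hv⟩
    exact h1 i j c hij hv
  · intro e e' hne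
    rw [Set.disjoint_left]
    rintro v ⟨i, j, hij, rfl, hv⟩ ⟨i', j', hij', rfl, hv'⟩
    refine Set.disjoint_left.1 (h2 i j i' j' hij hij' ?_) hv hv'
    by_contra hcon
    push Not at hcon
    exact hne (by rw [hcon.1, hcon.2])
  · intro a b hab
    have key : ∀ i j, i < j → Lk G (f i) (f j) {v | ∃ i' j', i' < j' ∧ s(i, j) = s(i', j') ∧
        v ∈ I i' j'} := by
      intro i j hij
      refine SimpleGraph.Reachable.mono ?_ (h3 i j hij)
      have hz : ∀ c, c ∈ insert (f i) (insert (f j) (I i j)) → c ∈ insert (f i) (insert (f j)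
          {v | ∃ i' j', i' < j' ∧ s(i, j) = s(i', j') ∧ v ∈ I i' j'}) := by
        rintro c (rfl | rfl | hc)
        · exact Or.inl rfl
        · exact Or.inr (Or.inl rfl)
        · exact Or.inr (Or.inr ⟨i, j, hij, rfl, hc⟩)
      exact fun u v huv => ⟨huv.1, hz u huv.2.1, hz v huv.2.2⟩
    rcases lt_or_gt_of_ne (show a ≠ b from hab) with h | h
    · exact key a b h
    · have := key b a h
      unfold Lk at this ⊢
      rw [Set.insert_comm, Sym2.eq_swap]
      exact this.symm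
  · intro a
    by_cases h0 : a = 0
    · refine ⟨⟨1, by omega⟩, fun h => ?_⟩
      rw [h0] at h
      exact absurd (Fin.mk.inj_iff.1 h) (by norm_num)
    · exact ⟨0, h0⟩

/-- paths replaced by sets -/
theorem tk_of_walks {G : SimpleGraph V}
    (h : ∃ (f : Fin (nc + 1) ↪ V) (P : ∀ a b : Fin (nc + 1),
      (⊤ : SimpleGraph (Fin (nc + 1))).Adj a b → G.Walk (f a) (f b)),
      (∀ a b (h : (⊤ : SimpleGraph (Fin (nc + 1))).Adj a b), (P a b h).IsPath) ∧
      (∀ a b (h : (⊤ : SimpleGraph (Fin (nc + 1))).Adj a b) (c : Fin (nc + 1)),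
        f c ∈ (P a b h).support → c = a ∨ c = b) ∧
      ∀ a b (h : (⊤ : SimpleGraph (Fin (nc + 1))).Adj a b) a' b'
        (h' : (⊤ : SimpleGraph (Fin (nc + 1))).Adj a' b'), s(a, b) ≠ s(a', b') →
        ∀ v, v ∈ (P a b h).support → v ∈ (P a' b' h').support → v ∈ Set.range f) :
    TK nc G := by
  obtain ⟨f, P, -, h2, h3⟩ := h
  refine ⟨f, fun i j => {v | ∃ h : i < j, v ∈ (P i j h.ne).support ∧ v ≠ f i ∧ v ≠ f j},
    f.injective, ?_, ?_, ?_⟩
  · rintro i j k hij ⟨_, hk, hki, hkj⟩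
    rcases h2 i j _ k hk with rfl | rfl
    · exact hki rfl
    · exact hkj rfl
  · intro i j i' j' hij hij' hne
    rw [Set.disjoint_left]
    rintro v ⟨_, hv, hvi, hvj⟩ ⟨_, hv', _, _⟩
    have hs : s(i, j) ≠ s(i', j') := by
      intro h
      rw [Sym2.eq_iff] at h
      rcases h with ⟨rfl, rfl⟩ | ⟨rfl, rfl⟩
      · exact hne.elim (fun h => h rfl) (fun h => h rfl)
      · exact absurd hij (not_lt.2 hij'.le)
    obtain ⟨c, rfl⟩ := h3 i j hij.ne i' j' hij'.ne hs v hv hv'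
    rcases h2 i j _ c hv with rfl | rfl
    · exact hvi rfl
    · exact hvj rfl
  · intro i j hij
    refine reach_of_walk (P i j hij.ne) fun v hv => ?_
    by_cases hi : v = f i
    · exact Or.inl hi
    · by_cases hj : v = f j
      · exact Or.inr (Or.inl hj)
      · exact Or.inr (Or.inr ⟨hij, hv, hi, hj⟩)

end FINM

/-- every counterexample contains a minimal one -/
theorem mainB (hNIV : SpecNIV nc) (V : Type) [Finite V] (G : SimpleGraph V) (hT : ¬ TK nc G)
    (hc : ¬ Col nc G) : ∃ (n : ℕ) (G' : SimpleGraph (Fin n)), Min nc G' ∧ TC G' G :=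
  hNIV (fun W H => TC H G)
    (fun W _ => ⟨fun H H' hle h => TCM.mono hle h,
      fun H x y I h1 h2 h3 h4 h5 => TCM.lop h1 h2 h3 h4 h5⟩)
    (fun W W' _ _ e H h => TCM.comap e h) V G (TCM.refl G) hT hc

end Pool.Agent.Lib.MPc67b86.Q
end
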