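import Pool.Agent.Lib.MP_c67b86_co.Spec
import Pool.Agent.DL.MENG
import Pool.Agent.Lib.MP_c67b86_co.TYP
import Pool.Agent.Lib.MP_c67b86_co.Q.TYP
import Pool.Agent.Lib.MP_c67b86_co.Q.FIN

section
/-!
MP_c67b86_co: module FAN (the fan lemma, from `DL.fan`).  (helper76)
-/
set_option autoImplicit false

namespace Pool.Agent.Lib.MPc67b86

namespace FANM

open Classical in
theorem lk_of_isPth {V : Type} [Fintype V] {G : SimpleGraph V} {s t : V} {P : Finset (Sym2 V)}
    (h : DL.IsPth G s t P) :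
    Lk G s t {u | u ∈ DL.vs P ∧ u ≠ s ∧ u ≠ t} := by

  obtain ⟨w, hw, hwP⟩ := h
  have he : ∀ e ∈ w.edges, e ∈ (res G (insert s (insert t {u | u ∈ DL.vs P ∧ u ≠ s ∧ u ≠ t}))).edgeSet := by
    intro e hew
    have heP : e ∈ P := by rw [← hwP]; exact List.mem_toFinset.2 hew
    have heG : e ∈ G.edgeSet := w.edges_subset_edgeSet hew
    induction e using Sym2.ind with
    | _ a b =>
      have hmem : ∀ c ∈ s(a, b), c ∈ insert s (insert t {u | u ∈ DL.vs P ∧ u ≠ s ∧ u ≠ t}) := by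
        intro c hc
        by_cases h1 : c = s
        · exact Or.inl h1
        · by_cases h2 : c = t
          · exact Or.inr (Or.inl h2)
          · refine Or.inr (Or.inr ⟨?_, h1, h2⟩)
            unfold DL.vs
            exact Finset.mem_filter.2 ⟨Finset.mem_univ _, _, heP, hc⟩
      exact ⟨heG, hmem a (Sym2.mem_mk_left a b), hmem b (Sym2.mem_mk_right a b)⟩
  exact ⟨w.transfer _ he⟩

end FANM

theorem specFAN : SpecFAN := by
  classical
  intro V _ G v B k hv h
  let _ : Fintype V := Fintype.ofFinite V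
  obtain ⟨b, P, hbB, hbi, hP, hdis, hB⟩ := DL.fan (G := G) (v := v) (B := B.toFinset) (k := k)
    (fun h' => hv (Set.mem_toFinset.1 h')) (by
      intro T hvT hT
      obtain ⟨c, hc, hcT, hr⟩ := h (T : Set V) (by simpa using hvT) (by rw [Set.ncard_coe_finset]; exact hT)
      refine ⟨c, Set.mem_toFinset.2 hc, by simpa using hcT, hr.mono ?_⟩
      intro x y hxy
      exact ⟨hxy.1, fun h' => hxy.2.1 (Finset.mem_coe.2 h'), fun h' => hxy.2.2 (Finset.mem_coe.2 h')⟩)
  refine ⟨b, fun i => {u | u ∈ DL.vs (P i) ∧ u ≠ v ∧ u ≠ b i}, hbi, fun i => Set.mem_toFinset.1 (hbB i), ?_, ?_, ?_, ?_, ?_⟩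
  · intro i
    refine Set.disjoint_left.2 fun u hu huB => ?_
    exact hu.2.2 (hB i u hu.1 (Set.mem_toFinset.2 huB))
  · intro i hi
    exact hi.2.1 rfl
  · intro i j hij
    refine Set.disjoint_left.2 fun u hu hu' => ?_
    exact hu.2.1 (Finset.mem_singleton.1 (hdis i j hij (Finset.mem_inter.2 ⟨hu.1, hu'.1⟩)))
  · intro i
    exact FANM.lk_of_isPth (hP i)
  · intro i u hu
    have h1 := hu.1
    unfold DL.vs at h1
    obtain ⟨-, e, heP, hue⟩ := Finset.mem_filter.1 h1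
    have heG := (hP i).subset _ heP
    obtain ⟨w, rfl⟩ := hue
    exact ⟨w, by simpa using heG⟩

end Pool.Agent.Lib.MPc67b86
end

section
/-!
# MP_c67b86_co: KPT (two internally disjoint paths)
-/
set_option autoImplicit false

namespace Pool.Agent.Lib.MPc67b86

namespace KPTM

theorem mem_vs_of_support {V : Type} [Fintype V] [DecidableEq V] {G : SimpleGraph V} {a b v : V}
    (w : G.Walk a b) (hab : a ≠ b) (hv : v ∈ w.support) : v ∈ DL.vs w.edges.toFinset := by
  rw [DL.mem_vs]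
  have hnil : ¬ w.Nil := SimpleGraph.Walk.not_nil_of_ne hab
  obtain ⟨e, he, hve⟩ :=
    (SimpleGraph.Walk.mem_support_iff_exists_mem_edges_of_not_nil hnil).1 hv
  exact ⟨e, List.mem_toFinset.2 he, hve⟩

end KPTM

open KPTM in
theorem specKPT : SpecKPT := by
  classical
  intro V _ G a b hab hn h
  have : Fintype V := Fintype.ofFinite V
  obtain ⟨P, -, hP, hd⟩ := DL.kpaths (G := G) (k := 2) hab hn (fun T haT hbT hT => by
    have h1 := h (T : Set V) (by simpa using haT) (by simpa using hbT)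
      (by rw [Set.ncard_coe_finset]; exact hT)
    refine h1.mono ?_
    intro u v huv
    exact ⟨huv.1, by simpa using huv.2.1, by simpa using huv.2.2⟩)
  obtain ⟨p, hp, hpe⟩ := hP 0
  obtain ⟨q, hq, hqe⟩ := hP 1
  refine ⟨p, q, hp, hq, fun v hv hv' => ?_⟩
  have h1 := hd 0 1 (by decide)
  have h2 : v ∈ DL.vs (P 0) ∩ DL.vs (P 1) := by
    rw [← hpe, ← hqe, Finset.mem_inter]
    exact ⟨mem_vs_of_support p hab hv, mem_vs_of_support q hab hv'⟩
  simpa using h1 h2

end Pool.Agent.Lib.MPc67b86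
end

section
/-!
# MP_c67b86_co, any number of colours: everything together
-/
set_option autoImplicit false

namespace Pool.Agent.Lib.MPc67b86.Q

variable {nc : ℕ}

theorem allTKL (hnc : 4 ≤ nc) : SpecTKL nc := specTKL hnc

theorem allRED (hnc : 4 ≤ nc) : SpecRED nc := specRED (allTKL hnc) specCNT

theorem allNIV (hnc : 4 ≤ nc) : SpecNIV nc := specNIV hnc

theorem allDEG (hnc : 4 ≤ nc) : SpecDEG nc := specDEG (allRED hnc)

theorem allGLU (hnc : 4 ≤ nc) : SpecGLU nc := specGLU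

theorem allSP2 (hnc : 4 ≤ nc) : SpecSP2 nc := specSP2 (allRED hnc) (allGLU hnc)

theorem allLKS (hnc : 4 ≤ nc) : SpecLKS nc := specLKS (allSP2 hnc)

theorem allGL3 (hnc : 4 ≤ nc) : SpecGL3 nc := specGL3 (allGLU hnc)

theorem allTYP (hnc : 4 ≤ nc) : SpecTYP nc := specTYP (allRED hnc) (allLKS hnc) specOPP (allGL3 hnc)

theorem allSTA (hnc : 4 ≤ nc) : SpecSTA nc := specSTA (allRED hnc) specFAN (allSP2 hnc) (allLKS hnc) (allGL3 hnc)

theorem allTRI (hnc : 4 ≤ nc) : SpecTRI nc := specTRI (allTYP hnc) (allSTA hnc)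

theorem allCOR (hnc : 4 ≤ nc) : SpecCOR nc := specCOR (allRED hnc) (allSP2 hnc) specOPP (allGL3 hnc) (allTYP hnc) (allTRI hnc)

theorem allCSW (hnc : 4 ≤ nc) : SpecCSW nc := specCSW

theorem allCYC (hnc : 4 ≤ nc) : SpecCYC nc := specCYC specKPT (allGLU hnc)

theorem allTRG (hnc : 4 ≤ nc) : SpecTRG nc := specTRG specARC

theorem allCAT (hnc : 4 ≤ nc) : SpecCAT nc := specCAT specFAN (allCYC hnc) (allTRG hnc)

theorem allDG2 (hnc : 4 ≤ nc) : SpecDG2 nc := specDG2

theorem allCAP (hnc : 4 ≤ nc) : SpecCAP nc := specCAP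

theorem allIN1 (hnc : 4 ≤ nc) : SpecIN1 nc := specIN1

theorem allIN2 (hnc : 4 ≤ nc) : SpecIN2 nc := specIN2

theorem allIN3 (hnc : 4 ≤ nc) : SpecIN3 nc := specIN3 (allIN1 hnc) (allIN2 hnc)

theorem allSP3 (hnc : 4 ≤ nc) : SpecSP3 nc := specSP3 hnc specFAN (allCOR hnc) (allCSW hnc) (allCAT hnc) (allDG2 hnc) (allCAP hnc) (allIN3 hnc)

theorem not_col {V : Type} {G : SimpleGraph V} (h : ((nc + 1 : ℕ) : ℕ∞) ≤ G.chromaticNumber) :
    ¬ Col nc G := by
  rintro ⟨f, hf⟩
  have h1 : G.Colorable nc := ⟨SimpleGraph.Coloring.mk f fun {a b} hab => hf a b hab⟩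
  have h2 := h.trans h1.chromaticNumber_le
  have h3 : nc + 1 ≤ nc := by exact_mod_cast h2
  omega

theorem chi_of_not_col {V : Type} {G : SimpleGraph V} (h : ¬ Col nc G) :
    ((nc + 1 : ℕ) : ℕ∞) ≤ G.chromaticNumber := by
  by_contra hlt
  rw [not_le] at hlt
  have h1 : G.chromaticNumber ≤ (nc : ℕ∞) := by
    have : G.chromaticNumber < (nc : ℕ∞) + 1 := by exact_mod_cast hlt
    exact Order.le_of_lt_add_one this
  have h2 : G.Colorable nc := SimpleGraph.chromaticNumber_le_iff_colorable.1 h1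
  obtain ⟨C⟩ := h2
  exact h ⟨C, fun u v huv => C.valid huv⟩

end Pool.Agent.Lib.MPc67b86.Q
end
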