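import Pool.Agent.Lib.MP_c67b86_co.Spec

/-!
# MP_c67b86_co: separations of order at most three, any number of colours

The definitions and specifications of part B for `nc` colours and the complete graph on `nc + 1` vertices
(`Pool.Agent.Lib.MP_c67b86_co.Spec` is the case `nc = 4`).
-/

set_option autoImplicit false

namespace Pool.Agent.Lib.MPc67b86.Q

variable {V : Type}

/-- `f` is a proper colouring of `G[A]` with `nc` colours -/
def IsCol {nc : ℕ} (G : SimpleGraph V) (A : Set V) (f : V → Fin nc) : Prop :=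
  ∀ u ∈ A, ∀ v ∈ A, G.Adj u v → f u ≠ f v

/-- `G` has a proper colouring with `nc` colours -/
def Col (nc : ℕ) (G : SimpleGraph V) : Prop := ∃ f : V → Fin nc, ∀ u v, G.Adj u v → f u ≠ f v

/-- `G` contains a subdivision of the complete graph on `nc + 1` vertices: branch vertices `f i`, the inner vertices of the path from
`f i` to `f j` (`i < j`) are in `I i j` -/
def TK (nc : ℕ) (G : SimpleGraph V) : Prop :=
  ∃ (f : Fin (nc + 1) → V) (I : Fin (nc + 1) → Fin (nc + 1) → Set V), Function.Injective f ∧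
    (∀ i j k, i < j → f k ∉ I i j) ∧
    (∀ i j i' j', i < j → i' < j' → (i ≠ i' ∨ j ≠ j') → Disjoint (I i j) (I i' j')) ∧
    ∀ i j, i < j → Lk G (f i) (f j) (I i j)

/-- a counterexample with the least number of edges in a closed class, without isolated vertices -/
structure Min (nc : ℕ) (G : SimpleGraph V) : Prop where
  bad : True ∧ ¬ TK nc G ∧ ¬ Col nc G
  ex : ∃ P : SimpleGraph V → Prop, Closed P ∧ P G ∧
    ∀ G' : SimpleGraph V, P G' → ¬ TK nc G' → ¬ Col nc G' → ¬ G'.edgeSet.ncard < G.edgeSet.ncard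
  iso : ∀ v, ∃ w, G.Adj v w

/-- `G[A]` has a colouring in which `x`, `y`, `z` have different colours -/
def AccR (nc : ℕ) (G : SimpleGraph V) (A : Set V) (x y z : V) : Prop :=
  ∃ f : V → Fin nc, IsCol G A f ∧ f x ≠ f y ∧ f x ≠ f z ∧ f y ≠ f z

/-- `G[A]` has a colouring in which `x` and `y` have the same colour and `z` has another one -/
def AccS (nc : ℕ) (G : SimpleGraph V) (A : Set V) (x y z : V) : Prop :=
  ∃ f : V → Fin nc, IsCol G A f ∧ f x = f y ∧ f x ≠ f z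

/-- a smallest side `C` of a separation of order three which accepts different colours, with all
that is known about it -/
structure Core (nc : ℕ) (G : SimpleGraph V) (x y z : V) (C : Set V) : Prop where
  xy : x ≠ y
  xz : x ≠ z
  yz : y ≠ z
  sep : Sep G {x, y, z} C
  nxy : ¬ G.Adj x y
  nxz : ¬ G.Adj x z
  nyz : ¬ G.Adj y z
  r : AccR nc G (C ∪ {x, y, z}) x y z
  sxy : ¬ AccS nc G (C ∪ {x, y, z}) x y z
  sxz : ¬ AccS nc G (C ∪ {x, y, z}) x z y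
  syz : ¬ AccS nc G (C ∪ {x, y, z}) y z x
  two : ∀ s, s = x ∨ s = y ∨ s = z → ∃ a ∈ C, ∃ b ∈ C, a ≠ b ∧ G.Adj s a ∧ G.Adj s b
  tri : ∀ I J K : Set V, I ⊆ C → J ⊆ C → K ⊆ C → Disjoint I J → Disjoint I K → Disjoint J K →
    Lk G x y I → Lk G x z J → Lk G y z K → False
  small : ∀ (u v w : V) (M : Set V), u ≠ v → u ≠ w → v ≠ w → Sep G {u, v, w} M →
    M.ncard < C.ncard →
    ¬ G.Adj u v ∧ ¬ G.Adj u w ∧ ¬ G.Adj v w ∧ ¬ AccR nc G (M ∪ {u, v, w}) u v w ∧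
      AccS nc G (M ∪ {u, v, w}) u v w ∧ AccS nc G (M ∪ {u, v, w}) u w v ∧ AccS nc G (M ∪ {u, v, w}) v w u
  no2 : ∀ S M : Set V, S.ncard ≤ 2 → ¬ Sep G S M

/-- `x` can be given the fourth colour by a change inside `K` -/
def Flex (nc : ℕ) (G : SimpleGraph V) (x y z : V) (C K : Set V) : Prop :=
  ∀ f : V → Fin nc, IsCol G (C ∪ {x, y, z}) f → f x ≠ f y → f x ≠ f z → f y ≠ f z →
    ∃ g : V → Fin nc, IsCol G (C ∪ {x, y, z}) g ∧ (∀ v, v ∉ K → g v = f v) ∧ g x ≠ f x ∧ g x ≠ f y ∧ g x ≠ f z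

/-- `x` can be given every colour different from those of `y` and `z` by a change inside `K` -/
def FlexD (nc : ℕ) (G : SimpleGraph V) (x y z : V) (C K : Set V) : Prop :=
  ∀ f : V → Fin nc, IsCol G (C ∪ {x, y, z}) f → f x ≠ f y → f x ≠ f z → f y ≠ f z →
    ∀ d : Fin nc, d ≠ f y → d ≠ f z →
    ∃ g : V → Fin nc, IsCol G (C ∪ {x, y, z}) g ∧ (∀ v, v ∉ K → g v = f v) ∧ g x = d

/-- the colourings of `K` and its attachments in which exactly two of `x`, `p`, `q` have the same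
colour -/
def Loc (nc : ℕ) (G : SimpleGraph V) (x : V) (K : Set V) (p q : V) : Prop :=
  ∀ a b c : Fin nc, (a = b → c ≠ a) → (a ≠ b → c = a ∨ c = b) →
    ∃ h : V → Fin nc, IsCol G (K ∪ {p, q}) h ∧ h p = a ∧ h q = b ∧ h x = c

/-- in all colourings of the side without `K` with `y`, `z` different, the vertices `p, q, y, z` have
different colours -/
def Ext (nc : ℕ) (G : SimpleGraph V) (x y z : V) (C K : Set V) (p q : V) : Prop :=
  ∀ f : V → Fin nc, IsCol G {v | v ∈ C ∪ {x, y, z} ∧ v ∉ K} f → f y ≠ f z →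
    f p ≠ f q ∧ f p ≠ f y ∧ f p ≠ f z ∧ f q ≠ f y ∧ f q ≠ f z

/-- TKL, with `nc` colours -/
def SpecTKL (nc : ℕ) : Prop :=
  (∀ (V : Type) (G G' : SimpleGraph V), G' ≤ G → TK nc G' → TK nc G) ∧
  ∀ (V : Type) (G : SimpleGraph V) (x y : V) (I : Set V), x ≠ y → x ∉ I → y ∉ I →
    Lk G x y I → TK nc (lop G I x y) → TK nc G

/-- RED, with `nc` colours -/
def SpecRED (nc : ℕ) : Prop :=
  ∀ (V : Type) [Finite V] (G : SimpleGraph V), Min nc G → ∀ (W : Set V), (∃ a, a ∉ W) →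
    ∀ (m : ℕ) (x y : Fin m → V) (I : Fin m → Set V),
    (∀ j, x j ∈ W) → (∀ j, y j ∈ W) → (∀ j, x j ≠ y j) → (∀ j, Disjoint (I j) W) →
    (∀ j k, j ≠ k → Disjoint (I j) (I k)) → (∀ j, Lk G (x j) (y j) (I j)) →
    ∃ f : V → Fin nc, IsCol G W f ∧ ∀ j, f (x j) ≠ f (y j)

/-- NIV, with `nc` colours -/
def SpecNIV (nc : ℕ) : Prop :=
  ∀ (CC : ∀ (V : Type), SimpleGraph V → Prop),
    (∀ (V : Type) [Finite V], Closed (CC V)) →
    (∀ (V W : Type) [Finite V] [Finite W] (e : W ↪ V) (G : SimpleGraph V), CC V G →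
      CC W (G.comap e)) →
    ∀ (V : Type) [Finite V] (G : SimpleGraph V), CC V G → ¬ TK nc G → ¬ Col nc G →
      ∃ (n : ℕ) (G' : SimpleGraph (Fin n)), Min nc G' ∧ CC (Fin n) G'

/-- DEG, with `nc` colours -/
def SpecDEG (nc : ℕ) : Prop :=
  ∀ (V : Type) [Finite V] (G : SimpleGraph V), Min nc G →
    (∀ v, nc ≤ (G.neighborSet v).ncard) ∧
    ∀ v w, v ≠ w → ¬ G.Adj v w → ¬ G.neighborSet v ⊆ G.neighborSet w

/-- GLU, with `nc` colours -/
def SpecGLU (nc : ℕ) : Prop :=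
  ∀ (V : Type) (G : SimpleGraph V) (A B : Set V) (f g : V → Fin nc), IsCol G A f → IsCol G B g →
    (∀ u ∈ A, u ∉ B → ∀ v ∈ B, v ∉ A → ¬ G.Adj u v) →
    (∀ s ∈ A, s ∈ B → ∀ t ∈ A, t ∈ B → (f s = f t ↔ g s = g t)) →
    ∃ h : V → Fin nc, IsCol G (A ∪ B) h ∧ (∀ u ∈ A, h u = f u) ∧
      ∃ σ : Equiv.Perm (Fin nc), ∀ u ∈ B, h u = σ (g u)

/-- SP2, with `nc` colours -/
def SpecSP2 (nc : ℕ) : Prop :=
  ∀ (V : Type) [Finite V] (G : SimpleGraph V), Min nc G → ∀ S C : Set V, S.ncard ≤ 2 → ¬ Sep G S C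

/-- LKS, with `nc` colours -/
def SpecLKS (nc : ℕ) : Prop :=
  ∀ (V : Type) [Finite V] (G : SimpleGraph V), Min nc G → ∀ S C : Set V, S.ncard ≤ 3 → Sep G S C →
    (∀ s ∈ S, ∃ a ∈ C, G.Adj s a) ∧ ∀ s ∈ S, ∀ t ∈ S, s ≠ t → Lk G s t C

/-- GL3, with `nc` colours -/
def SpecGL3 (nc : ℕ) : Prop :=
  ∀ (V : Type) [Finite V] (G : SimpleGraph V), Min nc G → ∀ (x y z : V) (C : Set V),
    x ≠ y → x ≠ z → y ≠ z → Sep G {x, y, z} C →
    ¬ (AccR nc G (C ∪ {x, y, z}) x y z ∧ AccR nc G Cᶜ x y z) ∧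
    ¬ (AccS nc G (C ∪ {x, y, z}) x y z ∧ AccS nc G Cᶜ x y z) ∧
    ¬ (AccS nc G (C ∪ {x, y, z}) x z y ∧ AccS nc G Cᶜ x z y) ∧
    ¬ (AccS nc G (C ∪ {x, y, z}) y z x ∧ AccS nc G Cᶜ y z x)

/-- TYP, with `nc` colours -/
def SpecTYP (nc : ℕ) : Prop :=
  ∀ (V : Type) [Finite V] (G : SimpleGraph V), Min nc G → ∀ (x y z : V) (C : Set V),
    x ≠ y → x ≠ z → y ≠ z → Sep G {x, y, z} C →
    (AccR nc G (C ∪ {x, y, z}) x y z ∨ AccR nc G Cᶜ x y z) ∧
    (AccR nc G (C ∪ {x, y, z}) x y z →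
      (AccS nc G Cᶜ x y z ∧ AccS nc G Cᶜ x z y) ∨ (AccS nc G Cᶜ x y z ∧ AccS nc G Cᶜ y z x) ∨
        (AccS nc G Cᶜ x z y ∧ AccS nc G Cᶜ y z x))

/-- STA, with `nc` colours -/
def SpecSTA (nc : ℕ) : Prop :=
  ∀ (V : Type) [Finite V] (G : SimpleGraph V), Min nc G → ∀ (x y z : V) (C : Set V),
    x ≠ y → x ≠ z → y ≠ z → Sep G {x, y, z} C → AccR nc G (C ∪ {x, y, z}) x y z →
    AccS nc G Cᶜ x z y → AccS nc G Cᶜ y z x →
    AccS nc G Cᶜ x y z ∧ ∃ a ∈ C, ∃ b ∈ C, a ≠ b ∧ G.Adj z a ∧ G.Adj z b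

/-- TRI, with `nc` colours -/
def SpecTRI (nc : ℕ) : Prop :=
  ∀ (V : Type) [Finite V] (G : SimpleGraph V), Min nc G → ∀ (x y z : V) (C : Set V),
    x ≠ y → x ≠ z → y ≠ z → Sep G {x, y, z} C → AccR nc G (C ∪ {x, y, z}) x y z →
    AccS nc G Cᶜ x y z ∧ AccS nc G Cᶜ x z y ∧ AccS nc G Cᶜ y z x ∧
      ∀ s, s = x ∨ s = y ∨ s = z → ∃ a ∈ C, ∃ b ∈ C, a ≠ b ∧ G.Adj s a ∧ G.Adj s b

/-- COR, with `nc` colours -/
def SpecCOR (nc : ℕ) : Prop :=
  ∀ (V : Type) [Finite V] (G : SimpleGraph V), Min nc G → ∀ S C : Set V, S.ncard ≤ 3 → Sep G S C →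
    ∃ x y z C', Core nc G x y z C'

/-- CSW, with `nc` colours -/
def SpecCSW (nc : ℕ) : Prop :=
  ∀ (V : Type) (G : SimpleGraph V) (x y z : V) (C : Set V), Core nc G x y z C →
    Core nc G y x z C ∧ Core nc G x z y C

/-- CYC, with `nc` colours -/
def SpecCYC (nc : ℕ) : Prop :=
  ∀ (V : Type) [Finite V] (G : SimpleGraph V) (x y z : V) (C : Set V), Core nc G x y z C →
    ∃ P Q : G.Walk y z, P.IsPath ∧ Q.IsPath ∧ (∀ v ∈ P.support, v ∈ C ∪ {y, z}) ∧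
      (∀ v ∈ Q.support, v ∈ C ∪ {y, z}) ∧ ∀ v, v ∈ P.support → v ∈ Q.support → v = y ∨ v = z

/-- TRG, with `nc` colours -/
def SpecTRG (nc : ℕ) : Prop :=
  ∀ (V : Type) [Finite V] (G : SimpleGraph V) (x y z : V) (C : Set V), Core nc G x y z C →
    ∀ P Q : G.Walk y z, P.IsPath → Q.IsPath → (∀ v ∈ P.support, v ∈ C ∪ {y, z}) →
    (∀ v ∈ Q.support, v ∈ C ∪ {y, z}) → (∀ v, v ∈ P.support → v ∈ Q.support → v = y ∨ v = z) →
    ∀ (b : Fin 3 → V) (I : Fin 3 → Set V), Function.Injective b →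
    (∀ i, b i ∈ P.support ∨ b i ∈ Q.support) → (∀ i, I i ⊆ C) →
    (∀ i, ∀ v ∈ I i, v ∉ P.support ∧ v ∉ Q.support) → (∀ i j, i ≠ j → Disjoint (I i) (I j)) →
    (∀ i, Lk G x (b i) (I i)) → False

/-- CAT, with `nc` colours -/
def SpecCAT (nc : ℕ) : Prop :=
  ∀ (V : Type) [Finite V] (G : SimpleGraph V) (x y z : V) (C : Set V), Core nc G x y z C →
    ∃ (K : Set V) (p q : V), Att G x y z C K p q

/-- DG2, with `nc` colours -/
def SpecDG2 (nc : ℕ) : Prop :=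
  ∀ (V : Type) [Finite V] (G : SimpleGraph V) (x y z : V) (C : Set V), Core nc G x y z C →
    ∀ p q : V, Att G x y z C {x} p q → p ∈ C ∧ q ∈ C ∧ FlexD nc G x y z C {x}

/-- CAP, with `nc` colours -/
def SpecCAP (nc : ℕ) : Prop :=
  ∀ (V : Type) [Finite V] (G : SimpleGraph V) (x y z : V) (C : Set V), Core nc G x y z C →
    ∀ (K : Set V) (p q : V), Att G x y z C K p q → K ≠ {x} →
    p ∈ C ∧ q ∈ C ∧ Loc nc G x K p q ∧ Ext nc G x y z C K p q

/-- IN1, with `nc` colours -/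
def SpecIN1 (nc : ℕ) : Prop :=
  ∀ (V : Type) [Finite V] (G : SimpleGraph V) (x y z : V) (C : Set V), Core nc G x y z C →
    ∀ (K : Set V) (p q : V), Att G x y z C K p q → p ∈ C → q ∈ C →
    ∀ (L : Set V) (r s : V), Att G y x z C L r s → r ∈ C → s ∈ C →
    2 ≤ (({p, q} \ L) ∪ ({r, s} \ K) : Set V).ncard ∧ Disjoint K L

/-- IN2, with `nc` colours -/
def SpecIN2 (nc : ℕ) : Prop :=
  ∀ (V : Type) [Finite V] (G : SimpleGraph V) (x y z : V) (C : Set V), Core nc G x y z C →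
    ∀ (K : Set V) (p q : V), Att G x y z C K p q → p ∈ C → q ∈ C → Ext nc G x y z C K p q →
    ∀ (L : Set V) (r s : V), Att G y x z C L r s → r ∈ C → s ∈ C → Ext nc G y x z C L r s →
    Disjoint K L → p ∈ L → q ∉ L → r ∈ K → s ∉ K → False

/-- IN3, with `nc` colours -/
def SpecIN3 (nc : ℕ) : Prop :=
  ∀ (V : Type) [Finite V] (G : SimpleGraph V) (x y z : V) (C : Set V), Core nc G x y z C →
    ∀ (K : Set V) (p q : V), Att G x y z C K p q → p ∈ C → q ∈ C →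
    (K = {x} ∨ Ext nc G x y z C K p q) →
    ∀ (L : Set V) (r s : V), Att G y x z C L r s → r ∈ C → s ∈ C →
    (L = {y} ∨ Ext nc G y x z C L r s) → Disjoint K L ∧ ∀ u ∈ K, ∀ v ∈ L, ¬ G.Adj u v

/-- SP3, with `nc` colours -/
def SpecSP3 (nc : ℕ) : Prop :=
  ∀ (V : Type) [Finite V] (G : SimpleGraph V), Min nc G → ∀ S C : Set V, S.ncard ≤ 3 → ¬ Sep G S C

end Pool.Agent.Lib.MPc67b86.Q
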